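import Pool.Agent.H554Z.DD.Asymp

set_option autoImplicit false

namespace Pool.Agent.Results.MP_869403_co.AThetaLog

open Pool.Agent.H554Z.DD

/-- The upper directed `p`-domination number of the complete `r`-uniform hypergraph has order
`log n` whenever `r + 2 ≤ 2 ^ (p + 1)` (in particular for `p = r - 1`), and more generally whenever
every tournament on `r` vertices has a dominating set of at most `p` vertices. -/
theorem result (r p : ℕ) (hpr : p + 1 ≤ r) (h : r + 2 ≤ 2 ^ (p + 1) ∨ TournDom r p) :
    ∃ c C : ℝ, 0 < c ∧ 0 < C ∧ ∃ N : ℕ, ∀ n : ℕ, N ≤ n →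
      c * Real.log n ≤ Gamma n r p ∧ (Gamma n r p : ℝ) ≤ C * Real.log n :=
  theta_log r p hpr h

end Pool.Agent.Results.MP_869403_co.AThetaLog
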