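import Pool.Agent.H554Z.DD.Asymp

set_option autoImplicit false

namespace Pool.Agent.Results.MP_869403_co.BPolylogLower

open Pool.Agent.H554Z.DD

/-- A polylogarithmic lower bound for every `p ≥ 1`; the choice `g = r` is always allowed. -/
theorem result (g r p : ℕ) (hg : 2 ≤ g) (hp : 1 ≤ p) (hrg : r + 2 ≤ 2 ^ (p - 1) * (g + 2)) :
    ∃ c : ℝ, 0 < c ∧ ∃ N : ℕ, ∀ n : ℕ, N ≤ n →
      c * Real.log n ^ (1 / ((g : ℝ) - 1)) ≤ Gamma n r p :=
  polylog_lower g r p hg hp hrg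

end Pool.Agent.Results.MP_869403_co.BPolylogLower
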