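import Pool.Agent.H554Z.DD.Asymp

set_option autoImplicit false

namespace Pool.Agent.Results.MP_869403_co.CSublogUpper

open Pool.Agent.H554Z.DD

/-- For `p = 1` and `r ≥ 3` the upper directed domination number is `O(log n / log log n)`. -/
theorem result (r : ℕ) (hr : 3 ≤ r) :
    ∃ C : ℝ, 0 < C ∧ ∃ N : ℕ, ∀ n : ℕ, N ≤ n →
      (Gamma n r 1 : ℝ) ≤ C * (Real.log n / Real.log (Real.log n)) :=
  sublog_upper r hr

end Pool.Agent.Results.MP_869403_co.CSublogUpper
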